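import Pool.Agent.Lib.MP_9053f7_an.S73Final

open scoped TensorProduct
open Pool.Agent.Lib.MP_9053f7_an

universe u

theorem Pool.Agent.Results.MP_9053f7_an.StronglyRegular.result :
    ∃ (A : Type) (_ : NormedCommRing A) (_ : NormedAlgebra ℂ A) (_ : CompleteSpace A)
      (B : Type) (_ : NormedCommRing B) (_ : NormedAlgebra ℂ B) (_ : CompleteSpace B)
      (j : A ⊗[ℂ] A →ₐ[ℂ] B),
      IsProjTensor j ∧ IsSemisimpleBA A ∧ IsRegularBA A ∧ IsSemisimpleBA B ∧
        IsAmenableBA.{u} A ∧ (∀ φ : WeakDual.characterSpace ℂ A, IsSpectralSet A {φ}) ∧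
        ¬ IsSpectralSet B (diagonal j) :=
  S73.exists_counterexample
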